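import Pool.Agent.MP_151d89_pr.H52E.Cut
import Pool.Agent.MP_151d89_pr.H27.En2

/-!
The Mermin-Wagner alternative from the energy bound and the first moment bound.
-/

set_option autoImplicit false
open MeasureTheory Finset Filter

namespace Pool.Agent.MP_151d89_pr.H52E
open Pool.Agent.MP_151d89_pr.H82 Pool.Agent.MP_151d89_pr.H33 Pool.Agent.MP_151d89_pr.H67
  Pool.Agent.MP_151d89_pr.H30 Pool.Agent.MP_151d89_pr.H27 Pool.Agent.MP_151d89_pr.H67E
  Pool.Agent.MP_151d89_pr.H45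
open Pool.Agent.MP_151d89_pr.H30W (Leg al Hi Lo fl NoDesc IsPsi Val SumStmt)
open Pool.Agent.MP_151d89_pr.H5 (ell)
open Pool.Agent.MP_151d89_pr.H9 (nb)
open Classical

variable {μ : Measure Conf}

theorem nb_step (hμ : Gibbs μ) (b : Bool) (z : ℤ × ℤ) :
    nb (ell μ) (z + dir b) - nb (ell μ) z = cc μ b z := by
  have := hμ.1
  have h1 := H5.EllAux.ell_sub hμ (z + dir b) z
  have h2 : ∫ f, ((f (z + dir b) : ℝ) - (f z : ℝ)) ∂μ = ∫ f, (1 - 2 * ind (Lo b z f)) ∂μ := by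
    refine integral_congr_ae (hμ.2.1.mono fun f hf => ?_)
    by_cases e : Lo b z f
    · have e' : f (z + dir b) = f z - 1 := e
      simp only [ind_pos e, e']
      push_cast
      ring
    · simp only [ind_neg e, (not_lo hf b z).1 e]
      push_cast
      ring
  rw [h2, integral_sub (integrable_const _) ((intg (meas_ind (meas_Lo b z)) (B := 1)
    fun _ => by rw [abs_of_nonneg (ind_mem _).1]; exact (ind_mem _).2).const_mul 2),
    integral_const_mul, int_ind μ (meas_Lo b z)] at h1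
  simp only [integral_const, probReal_univ, smul_eq_mul, mul_one] at h1
  have h3 : (((z + dir b).1 : ℤ) : ℝ) + (z + dir b).2 = z.1 + z.2 + 1 := by
    cases b <;> simp [dir] <;> ring
  simp only [H9.nb, cc]
  linarith

theorem psi_step (hS : SumStmt) (hμ : Gibbs μ) (hT : Triv μ) (hN : NoDesc μ) {Ψ : ℤ × ℤ → ℝ}
    (h : IsPsi μ Ψ) (z : ℤ × ℤ) :
    (∀ b, |Ψ (z + dir b) - Ψ z| ≤ al μ (!b) z + cc μ b z + cc μ b (z - dir b)) ∧
      -1 ≤ Ψ (z + dir true) - Ψ z ∧ -1 ≤ -Ψ (z + dir false) - -Ψ z := by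
  obtain ⟨h1, h2⟩ := h.2 z
  have a1 := hS μ hμ hT hN true z
  have a2 := hS μ hμ hT hN false z
  have v1 : μ.real {f | Val (z + dir true) f} ≤ cc μ true z :=
    real_mono hμ fun f _ e => (hi_iff true z f).1 e.1
  have v2 : μ.real {f | Val z f} ≤ cc μ false (z - dir false) :=
    real_mono hμ fun f _ e => (hi_iff false (z - dir false) f).1 (by simpa using e.2)
  have v3 : 0 ≤ μ.real {f | Val (z + dir true) f} := measureReal_nonneg
  have v4 : 0 ≤ μ.real {f | Val z f} := measureReal_nonneg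
  have c1 := cc_nonneg μ true z
  have c2 := cc_nonneg μ false z
  have c3 := cc_nonneg μ true (z - dir true)
  have c4 := cc_le hμ true z
  have c5 := cc_le hμ false z
  have e1 : μ.real {f | Lo true z f} = cc μ true z := rfl
  have e2 : μ.real {f | Lo false z f} = cc μ false z := rfl
  refine ⟨fun b => ?_, by linarith [a2.2.2.1], by linarith [a1.2.2.1]⟩
  cases b
  · rw [abs_le, Bool.not_false]
    constructor <;> linarith [a1.2.2.1, a1.2.2.2.1]
  · rw [abs_le, Bool.not_true]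
    constructor <;> linarith [a2.2.2.1, a2.2.2.2.1]

theorem dat_cut (hS : SumStmt) (hμ : Gibbs μ) (hT : Triv μ) (hN : NoDesc μ) {Ψ : ℤ × ℤ → ℝ}
    (h : IsPsi μ Ψ) {a a' : ℝ} (ha : 0 < a) (ha' : a ≤ a') {n : ℕ}
    (hb : ∀ z, nrm z = n → 2 * a' ≤ |nb (ell μ) z| ∨ 2 * a' ≤ |Ψ z|) {U : Finset (ℤ × ℤ)}
    (hU : ∀ z, cut a' n (nb (ell μ)) Ψ z ≠ 0 → z ∈ U) :
    Dat μ (cut a' n (nb (ell μ)) Ψ) U (1 / a) (2 * ((2 * n + 1) * (4 + 2 * (2 * n + 1) / a)))
      (al μ) where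
  gib := hμ
  tri := hT
  h0 := fun z => (cut_mem _ _ _ _ z).1
  supp := hU
  lam0 := by positivity
  A0 := al_nonneg μ
  A1 := fun _ _ => le_rfl
  A2 := fun c z => (al'_eq hμ hN c z).ge
  A3 := fun c z => by
    have a1 := hS μ hμ hT hN c z
    have a2 := hS μ hμ hT hN c (z + dir c)
    have : 0 ≤ μ.real {f | Leg c z 0 f} := measureReal_nonneg
    linarith [a1.2.2.2.2.2.1, a2.2.2.2.2.1]
  A4 := fun c z => by
    have := hμ.1
    have a1 := hS μ hμ hT hN c z
    have a2 := hS μ hμ hT hN c (z + dir c)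
    have : μ.real {f | Leg c z 0 f} ≤ 1 := measureReal_le_one
    linarith [a1.2.2.2.2.2.1, a2.2.2.2.1]
  hw := fun b z => by
    refine (cut_lip (ha.trans_le ha') hb b z).trans ?_
    have a1 := (psi_step hS hμ hT hN h z).1 b
    have c1 := cc_nonneg μ b z
    have c2 := cc_nonneg μ b (z - dir b)
    rw [nb_step hμ, abs_of_nonneg c1, one_div_mul_eq_div]
    exact (div_le_div_of_nonneg_left (by positivity) ha ha').trans
      (div_le_div_of_nonneg_right (by linarith) ha.le)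
  tv := fun b S => by
    refine (cut_tv (ha.trans_le ha') hb b (fun z => ?_) ?_ S).trans ?_
    · rw [nb_step hμ]
      linarith [cc_nonneg μ b z]
    · cases b
      · exact Or.inr fun z => (psi_step hS hμ hT hN h z).2.2
      · exact Or.inl fun z => (psi_step hS hμ hT hN h z).2.1
    · gcongr

theorem FF_nonneg (μ : Measure Conf) (N : ℕ) (b : Bool) (r : ℤ × ℤ) : 0 ≤ FF μ N b r :=
  sum_nonneg fun _ _ => sum_nonneg fun _ _ => pp_nonneg _ _

theorem mw_of (hE : EStmt) (hF : FMStmt) (hS : SumStmt) (hSym : H9.SymStmt) : H9.MWStmt := by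
  intro μ hs Ψ hΨ ε hε
  obtain ⟨CE, hCE, hE⟩ := hE
  obtain ⟨CF, hCF, hF⟩ := hF
  obtain ⟨-, hR, hN, -⟩ := hSym μ hs
  have hμ := hs.gibbs
  have hT := hs.triv
  have h0 : Ψ (0, 0) = 0 := hΨ.1
  by_contra hcon
  rw [not_eventually] at hcon
  refine hs.nd (H27.mw_row μ hμ hT hR (CE * (4 / ε * (24 + 144 / ε) +
    (4 / ε) ^ 2 * (9 + CF * (1 + (24 + 144 / ε) + 4 / ε)))) fun r => ?_)
  obtain ⟨M, hM⟩ := ((box 0 r).image fun z => max |nb (ell μ) z| |Ψ z|).bddAbove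
  obtain ⟨n, hn, hn1, hn2⟩ := (hcon.and_eventually ((eventually_ge_atTop (r + 1)).and
    (tendsto_natCast_atTop_atTop.eventually_ge_atTop (4 * M / ε)))).exists
  have n1 : (1 : ℝ) ≤ n := by exact_mod_cast (by omega : 1 ≤ n)
  set a : ℝ := ε * n / 4 with ea
  have ha : 0 < a := by positivity
  have hb : ∀ z, nrm z = n → 2 * (2 * a) ≤ |nb (ell μ) z| ∨ 2 * (2 * a) ≤ |Ψ z| := fun z hz => by
    by_contra e
    rw [not_or, not_le, not_le] at e
    exact hn ⟨z, hz, by linarith [e.1], by rw [h0, sub_zero]; linarith [e.2]⟩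
  set φ := cut a n (nb (ell μ)) Ψ with eφ
  set U := (box 0 n).filter fun z => φ z ≠ 0 with eU
  have d1 : Dat μ φ U _ _ _ := dat_cut hS hμ hT hN hΨ ha le_rfl
    (fun z hz => (hb z hz).imp (fun e => by linarith) fun e => by linarith)
    fun z hz => mem_filter.2 ⟨mem_box0.2 (cut_lt hz).le, hz⟩
  have d2 : Dat μ (cut (2 * a) n (nb (ell μ)) Ψ) (box 0 n) _ _ _ :=
    dat_cut hS hμ hT hN hΨ ha (by linarith) hb fun z hz => mem_box0.2 (cut_lt hz).le
  have tv : 2 * ((2 * (n : ℝ) + 1) * (4 + 2 * (2 * n + 1) / a)) ≤ n * (24 + 144 / ε) := by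
    have : 2 * (2 * (n : ℝ) + 1) / a ≤ 24 / ε := by
      rw [div_le_div_iff₀ ha hε, ea]
      nlinarith
    have t : 0 ≤ 2 * (2 * (n : ℝ) + 1) / a := by positivity
    calc _ ≤ 2 * ((3 * (n : ℝ)) * (4 + 24 / ε)) := by gcongr; linarith
      _ = _ := by ring
  have la : 1 / a * n = 4 / ε := by rw [ea]; field_simp
  have fm : ∀ N b, ∑ r ∈ U, FF μ N b r ≤ CF * (1 + (24 + 144 / ε) + 4 / ε) * n ^ 2 := fun N b => by
    have k := hF μ _ _ _ _ _ d2 hR (fun z => (cut_mem _ _ _ _ z).2) n (by omega)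
      (fun z hz => mem_box0.1 hz) N b
    have k1 : ∑ r ∈ U, FF μ N b r ≤ ∑ r ∈ box 0 n, cut (2 * a) n (nb (ell μ)) Ψ r * FF μ N b r :=
      (sum_le_sum fun z hz => by rw [cut_wide ha (mem_filter.1 hz).2, one_mul]).trans
        (sum_le_sum_of_subset_of_nonneg (filter_subset _ _) fun z _ _ =>
          mul_nonneg (cut_mem _ _ _ _ z).1 (FF_nonneg _ _ _ _))
    refine k1.trans (k.trans ?_)
    rw [show 1 / a * (n : ℝ) ^ 2 = 4 / ε * n by rw [← la]; ring]
    calc _ ≤ CF * (n * (n + n * (24 + 144 / ε) + 4 / ε * n)) := by gcongr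
      _ = _ := by ring
  have card : (U.card : ℝ) ≤ 9 * n ^ 2 := by
    have : U.card ≤ (2 * n + 1) ^ 2 := (card_filter_le _ _).trans (card_box 0 n).le
    have : (U.card : ℝ) ≤ (2 * n + 1) ^ 2 := by exact_mod_cast this
    nlinarith
  refine ⟨n, ps φ, fun m => ⟨ps_nonneg d1.h0 m, (ps_le φ m (Nat.zero_le _)).trans
    (cut_mem _ _ _ _ _).2⟩, fun m hm => ?_, fun m hm y hy => ?_, fun N => ?_⟩
  · obtain ⟨t, ht, e⟩ := ps_ex φ m
    have k := hm _ (mem_tow.2 ⟨t, ht, rfl⟩)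
    have k2 := hM (mem_coe.2 (mem_image_of_mem (fun z => max |nb (ell μ) z| |Ψ z|)
      (mem_box0.2 k)))
    have k3 : M ≤ a := by
      rw [div_le_iff₀ hε] at hn2
      linarith
    rw [e]
    exact cut_one ha (by omega) ((le_max_left _ _).trans (k2.trans k3))
      ((le_max_right _ _).trans (k2.trans k3))
  · obtain ⟨t, ht, rfl⟩ := mem_tow.1 hy
    exact (cut_lt ((lt_of_le_of_ne (ps_nonneg d1.h0 m) hm.symm).trans_le (ps_le φ m ht)).ne').le
  · refine (hE μ _ _ _ _ _ d1 _ fm N).trans (mul_le_mul_of_nonneg_left ?_ hCE)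
    refine add_le_add ?_ ?_
    · calc _ ≤ 1 / a * (n * (24 + 144 / ε)) := mul_le_mul_of_nonneg_left tv (by positivity)
        _ = _ := by rw [← mul_assoc, la]
    · calc _ ≤ (1 / a) ^ 2 * (9 * n ^ 2 + CF * (1 + (24 + 144 / ε) + 4 / ε) * n ^ 2) := by gcongr
        _ = (1 / a * n) ^ 2 * (9 + CF * (1 + (24 + 144 / ε) + 4 / ε)) := by ring
        _ = _ := by rw [la]

end Pool.Agent.MP_151d89_pr.H52E
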