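import Pool.Agent.MP_151d89_pr.H52E.Spec

/-!
The cut-off built from two functions of the site.
-/

set_option autoImplicit false
open MeasureTheory Finset

namespace Pool.Agent.MP_151d89_pr.H52E
open Pool.Agent.MP_151d89_pr.H82 Pool.Agent.MP_151d89_pr.H30 Pool.Agent.MP_151d89_pr.H67E

/-- the bump function: 1 on [-a, a], 0 off (-2a, 2a) -/
noncomputable def chi (a t : ℝ) : ℝ := max 0 (min 1 (2 - |t| / a))

/-- the clamp to [-2a, 2a] -/
noncomputable def cl (a t : ℝ) : ℝ := max (-(2 * a)) (min (2 * a) t)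

theorem chi_mem (a t : ℝ) : 0 ≤ chi a t ∧ chi a t ≤ 1 :=
  ⟨le_max_left _ _, max_le zero_le_one (min_le_left _ _)⟩

theorem chi_neg (a t : ℝ) : chi a (-t) = chi a t := by simp [chi]

theorem chi_one {a t : ℝ} (ha : 0 < a) (h : |t| ≤ a) : chi a t = 1 := by
  have : |t| / a ≤ 1 := (div_le_one ha).2 h
  rw [chi, min_eq_left (by linarith), max_eq_right zero_le_one]

theorem chi_zero {a t : ℝ} (ha : 0 < a) (h : 2 * a ≤ |t|) : chi a t = 0 := by
  have : 2 ≤ |t| / a := (le_div_iff₀ ha).2 h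
  exact max_eq_left ((min_le_right _ _).trans (by linarith))

theorem chi_lip {a : ℝ} (ha : 0 < a) (u v : ℝ) : |chi a u - chi a v| ≤ |u - v| / a := by
  have h1 : |(2 - |u| / a) - (2 - |v| / a)| ≤ |u - v| / a := by
    rw [show (2 - |u| / a) - (2 - |v| / a) = (|v| - |u|) / a by ring, abs_div, abs_of_pos ha,
      abs_sub_comm u v]
    exact div_le_div_of_nonneg_right (abs_abs_sub_abs_le_abs_sub _ _) ha.le
  refine le_trans ?_ h1
  unfold chi
  rw [max_comm 0, max_comm 0]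
  refine (abs_max_sub_max_le_abs _ _ _).trans ?_
  refine (abs_min_sub_min_le_max _ _ _ _).trans ?_
  simp

theorem chi_cl {a : ℝ} (ha : 0 < a) (t : ℝ) : chi a (cl a t) = chi a t := by
  rcases le_total (2 * a) t with h | h
  · rw [chi_zero ha (h.trans (le_abs_self _)), cl, min_eq_left h, max_eq_right (by linarith)]
    exact chi_zero ha (le_abs_self _)
  · rw [cl, min_eq_right h]
    rcases le_total (-(2 * a)) t with h' | h'
    · rw [max_eq_right h']
    · rw [max_eq_left h', chi_neg, chi_zero ha (le_abs_self _),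
        chi_zero ha (le_trans (by linarith) (neg_le_abs _))]

theorem cl_step {a u v : ℝ} (h : -1 ≤ u - v) : |cl a u - cl a v| ≤ cl a u - cl a v + 2 := by
  have : -1 ≤ cl a u - cl a v := by
    simp only [cl, max_def, min_def]
    split_ifs <;> linarith
  rw [abs_le]
  constructor <;> linarith

theorem tv_line {a : ℝ} (ha : 0 < a) (n : ℕ) (g : ℤ → ℝ) (h : ∀ x, -1 ≤ g (x + 1) - g x) :
    ∑ x ∈ Icc (-(n : ℤ)) n, |chi a (g (x + 1)) - chi a (g x)| ≤ 4 + 2 * (2 * n + 1) / a := by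
  have e : Icc (-(n : ℤ)) n = (range (2 * n + 1)).image fun i : ℕ => -(n : ℤ) + i := by
    ext x
    simp only [mem_Icc, mem_image, mem_range]
    exact ⟨fun hx => ⟨(x + n).toNat, by omega, by omega⟩, fun ⟨i, h1, h2⟩ => by omega⟩
  rw [e, sum_image fun i _ j _ hij => by simpa using hij]
  have k : ∀ i ∈ range (2 * n + 1), |chi a (g (-(n : ℤ) + i + 1)) - chi a (g (-(n : ℤ) + i))| ≤
      (cl a (g (-(n : ℤ) + (i + 1 : ℕ))) - cl a (g (-(n : ℤ) + i)) + 2) / a := fun i _ => by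
    rw [← chi_cl ha (g (-(n : ℤ) + i + 1)), ← chi_cl ha (g (-(n : ℤ) + i)), Nat.cast_add,
      Nat.cast_one, ← add_assoc]
    exact (chi_lip ha _ _).trans (div_le_div_of_nonneg_right (cl_step (h _)) ha.le)
  refine (sum_le_sum k).trans ?_
  rw [← sum_div, sum_add_distrib, sum_range_sub fun i : ℕ => cl a (g (-(n : ℤ) + i)), sum_const,
    card_range, nsmul_eq_mul, div_le_iff₀ ha, add_mul, div_mul_cancel₀ _ ha.ne']
  have a1 : cl a (g (-(n : ℤ) + (2 * n + 1 : ℕ))) ≤ 2 * a :=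
    max_le (by linarith) (min_le_left _ _)
  have a2 : -(2 * a) ≤ cl a (g (-(n : ℤ) + (0 : ℕ))) := le_max_left _ _
  push_cast at a1 a2 ⊢
  linarith

theorem tv_box {a : ℝ} (ha : 0 < a) (n : ℕ) (b : Bool) (g : ℤ × ℤ → ℝ)
    (h : ∀ z, -1 ≤ g (z + dir b) - g z) :
    ∑ z ∈ box 0 n, |chi a (g (z + dir b)) - chi a (g z)| ≤
      (2 * n + 1) * (4 + 2 * (2 * n + 1) / a) := by
  have c : ((Icc (-(n : ℤ)) n).card : ℝ) = 2 * n + 1 := by
    rw [Int.card_Icc, show ((n : ℤ) + 1 - -(n : ℤ)).toNat = 2 * n + 1 by omega]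
    push_cast
    ring
  have e : box 0 n = Icc (-(n : ℤ)) n ×ˢ Icc (-(n : ℤ)) n := by
    ext z
    simp [mem_box]
  rw [e]
  nth_rewrite 1 [← c]
  rw [← nsmul_eq_mul]
  cases b
  · rw [sum_product]
    refine sum_le_card_nsmul _ _ _ fun x _ => ?_
    simpa [dir] using tv_line ha n (fun y => g (x, y)) fun y => by simpa [dir] using h (x, y)
  · rw [sum_product_right]
    refine sum_le_card_nsmul _ _ _ fun y _ => ?_
    simpa [dir] using tv_line ha n (fun x => g (x, y)) fun x => by simpa [dir] using h (x, y)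

/-- the cut-off -/
noncomputable def cut (a : ℝ) (n : ℕ) (D P : ℤ × ℤ → ℝ) (z : ℤ × ℤ) : ℝ :=
  if nrm z < n then chi a (D z) * chi a (P z) else 0

theorem cut_mem (a : ℝ) (n : ℕ) (D P : ℤ × ℤ → ℝ) (z : ℤ × ℤ) :
    0 ≤ cut a n D P z ∧ cut a n D P z ≤ 1 := by
  unfold cut
  split_ifs
  · exact ⟨mul_nonneg (chi_mem _ _).1 (chi_mem _ _).1,
      mul_le_one₀ (chi_mem _ _).2 (chi_mem _ _).1 (chi_mem _ _).2⟩
  · exact ⟨le_rfl, zero_le_one⟩

theorem cut_lt {a : ℝ} {n : ℕ} {D P : ℤ × ℤ → ℝ} {z : ℤ × ℤ} (h : cut a n D P z ≠ 0) :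
    nrm z < n := by
  by_contra e
  exact h (if_neg e)

theorem cut_one {a : ℝ} (ha : 0 < a) {n : ℕ} {D P : ℤ × ℤ → ℝ} {z : ℤ × ℤ} (h : nrm z < n)
    (h1 : |D z| ≤ a) (h2 : |P z| ≤ a) : cut a n D P z = 1 := by
  rw [cut, if_pos h, chi_one ha h1, chi_one ha h2, mul_one]

theorem cut_wide {a : ℝ} (ha : 0 < a) {n : ℕ} {D P : ℤ × ℤ → ℝ} {z : ℤ × ℤ}
    (h : cut a n D P z ≠ 0) : cut (2 * a) n D P z = 1 := by
  have h0 := cut_lt h
  rw [cut, if_pos h0] at h
  refine cut_one (by linarith) h0 ?_ ?_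
  · by_contra e
    exact h (by rw [chi_zero ha (not_le.1 e).le, zero_mul])
  · by_contra e
    exact h (by rw [chi_zero ha (not_le.1 e).le, mul_zero])

theorem nrm_dir (b : Bool) (z : ℤ × ℤ) : nrm (z + dir b) ≤ nrm z + 1 ∧ nrm z ≤ nrm (z + dir b) + 1 := by
  cases b <;> simp only [nrm, dir, Prod.fst_add, Prod.snd_add, Int.abs_eq_natAbs] <;> omega

theorem cut_edge {a : ℝ} (ha : 0 < a) {n : ℕ} {D P : ℤ × ℤ → ℝ}
    (hb : ∀ z, nrm z = n → 2 * a ≤ |D z| ∨ 2 * a ≤ |P z|) (b : Bool) (z : ℤ × ℤ) :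
    ww (cut a n D P) b z ≤ if z ∈ box 0 n then
      |chi a (D (z + dir b)) - chi a (D z)| + |chi a (P (z + dir b)) - chi a (P z)| else 0 := by
  have k : ∀ y, nrm y ≤ n → cut a n D P y = chi a (D y) * chi a (P y) := fun y hy => by
    unfold cut
    split_ifs with e
    · rfl
    · rcases hb y (by omega) with h | h <;> simp [chi_zero ha h]
  have := nrm_dir b z
  by_cases h : nrm z < n ∨ nrm (z + dir b) < n
  · rw [if_pos (mem_box0.2 (by omega)), ww, k z (by omega), k (z + dir b) (by omega)]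
    have a1 := chi_mem a (D z)
    have a2 := chi_mem a (P (z + dir b))
    rw [show chi a (D (z + dir b)) * chi a (P (z + dir b)) - chi a (D z) * chi a (P z) =
      (chi a (D (z + dir b)) - chi a (D z)) * chi a (P (z + dir b)) +
        chi a (D z) * (chi a (P (z + dir b)) - chi a (P z)) by ring]
    refine (abs_add_le _ _).trans (add_le_add ?_ ?_)
    · rw [abs_mul, abs_of_nonneg a2.1]
      exact mul_le_of_le_one_right (abs_nonneg _) a2.2
    · rw [abs_mul, abs_of_nonneg a1.1]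
      exact mul_le_of_le_one_left (abs_nonneg _) a1.2
  · rw [ww, cut, cut, if_neg (by omega), if_neg (by omega), sub_zero, abs_zero]
    split_ifs <;> positivity

theorem cut_lip {a : ℝ} (ha : 0 < a) {n : ℕ} {D P : ℤ × ℤ → ℝ}
    (hb : ∀ z, nrm z = n → 2 * a ≤ |D z| ∨ 2 * a ≤ |P z|) (b : Bool) (z : ℤ × ℤ) :
    ww (cut a n D P) b z ≤ (|D (z + dir b) - D z| + |P (z + dir b) - P z|) / a := by
  refine (cut_edge ha hb b z).trans ?_
  split_ifs
  · rw [add_div]
    exact add_le_add (chi_lip ha _ _) (chi_lip ha _ _)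
  · positivity

theorem cut_tv {a : ℝ} (ha : 0 < a) {n : ℕ} {D P : ℤ × ℤ → ℝ}
    (hb : ∀ z, nrm z = n → 2 * a ≤ |D z| ∨ 2 * a ≤ |P z|) (b : Bool)
    (hD : ∀ z, -1 ≤ D (z + dir b) - D z)
    (hP : (∀ z, -1 ≤ P (z + dir b) - P z) ∨ ∀ z, -1 ≤ -P (z + dir b) - -P z)
    (S : Finset (ℤ × ℤ)) :
    ∑ z ∈ S, ww (cut a n D P) b z ≤ 2 * ((2 * n + 1) * (4 + 2 * (2 * n + 1) / a)) := by
  refine (sum_le_sum fun z _ => cut_edge ha hb b z).trans ?_
  rw [← sum_filter]
  refine (sum_le_sum_of_subset_of_nonneg (t := box 0 n) (fun z hz => (mem_filter.1 hz).2)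
    fun _ _ _ => by positivity).trans ?_
  rw [sum_add_distrib, two_mul]
  refine add_le_add (tv_box ha n b D hD) ?_
  rcases hP with h | h
  · exact tv_box ha n b P h
  · simpa only [chi_neg] using tv_box ha n b (fun z => -P z) h

end Pool.Agent.MP_151d89_pr.H52E
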