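import Pool.Agent.MP_151d89_pr.H52E.Cut

/-!
The first moment bound.
-/

set_option autoImplicit false
open MeasureTheory Finset Filter Topology

namespace Pool.Agent.MP_151d89_pr.H52E
open Pool.Agent.MP_151d89_pr.H82 Pool.Agent.MP_151d89_pr.H33 Pool.Agent.MP_151d89_pr.H67
  Pool.Agent.MP_151d89_pr.H30 Pool.Agent.MP_151d89_pr.H27 Pool.Agent.MP_151d89_pr.H67E
  Pool.Agent.MP_151d89_pr.H45
open Pool.Agent.MP_151d89_pr.H30W (Leg al Hi Lo)
open Classical

variable {μ : Measure Conf}

theorem shift_sum (H : ℤ × ℤ → ℝ) (e : ℤ × ℤ) (W : Finset (ℤ × ℤ)) (h1 : ∀ z, H z ≠ 0 → z ∈ W)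
    (h2 : ∀ z, H (z + e) ≠ 0 → z ∈ W) : ∑ z ∈ W, H (z + e) = ∑ z ∈ W, H z := by
  rw [← finsum_eq_sum_of_support_subset (fun z => H (z + e)) fun z hz => mem_coe.2 (h2 z hz),
    ← finsum_eq_sum_of_support_subset H fun z hz => mem_coe.2 (h1 z hz)]
  exact finsum_comp_equiv (Equiv.addRight e)

theorem lin_real (hμ : Gibbs μ) {k : ℕ} (c : Fin k → ℝ) (E : Fin k → Conf → Prop)
    (hE : ∀ i, MeasurableSet {f | E i f}) (h : ∀ f, Hom f → ∑ i, c i * ind (E i f) = 0) :
    ∑ i, c i * μ.real {f | E i f} = 0 := by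
  have := hμ.1
  simp only [← fun i => int_ind μ (hE i), ← integral_const_mul]
  rw [← integral_finsetSum _ fun i _ => (intg (meas_ind (hE i)) (B := 1) fun _ => by
    rw [abs_of_nonneg (ind_mem _).1]; exact (ind_mem _).2).const_mul _]
  rw [integral_congr_ae (hμ.2.1.mono h), integral_zero]

/-- both lower neighbours are lower -/
def Ws (z : ℤ × ℤ) (f : Conf) : Prop := ¬ Hi true z f ∧ ¬ Hi false z f

/-- both upper neighbours are higher -/
def En (z : ℤ × ℤ) (f : Conf) : Prop := ¬ Lo true z f ∧ ¬ Lo false z f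

theorem meas_Ws (z : ℤ × ℤ) : MeasurableSet {f | Ws z f} :=
  (meas_Hi true z).compl.inter (meas_Hi false z).compl

theorem meas_En (z : ℤ × ℤ) : MeasurableSet {f | En z f} :=
  (meas_Lo true z).compl.inter (meas_Lo false z).compl

theorem run0 (b : Bool) (x : ℤ × ℤ) (f : Conf) : Run b x 0 f := fun t ht => by
  obtain rfl : t = 0 := by omega
  simp [pt]

theorem site_id (hμ : Gibbs μ) (z : ℤ × ℤ) :
    ∑ b, (μ.real {f | Vly b z 0 f} - μ.real {f | Rdg b z 0 f}) =
      μ.real {f | En z f} - μ.real {f | Ws z f} := by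
  have h := lin_real hμ ![1, 1, -1, -1, -1, 1, -1, 1]
    ![Vly true z 0, Vly false z 0, Rdg true z 0, Rdg false z 0, En z, Ws z, Av 1 (true, z, 0),
      Av (-1) (true, z, 0)]
    (fun i => by
      fin_cases i
      exacts [meas_Vly _ _ _, meas_Vly _ _ _, meas_Rdg _ _ _, meas_Rdg _ _ _, meas_En _, meas_Ws _,
        meas_Av _ _, meas_Av _ _])
    fun f hf => by
      have p1 : pt true z (-1) = z - dir true := pt_neg_one _ _
      have p2 : pt true z 1 = z + dir true := pt_one _ _
      have p3 : pt true z 0 = z := by simp [pt]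
      rcases step_dir hf true z with a1 | a1 <;> rcases step_dir hf false z with a2 | a2 <;>
        rcases step_dir' hf true z with a3 | a3 <;> rcases step_dir' hf false z with a4 | a4 <;>
        simp [Fin.sum_univ_succ, Vly, Rdg, En, Ws, Av, Hi, Lo, run0, ind, p1, p2, p3, a1, a2, a3, a4,
          sub_eq_add_neg (f z)]
  have h2 := p_rev hμ (true, z, 0)
  simp [Fin.sum_univ_succ] at h ⊢
  linarith

theorem face_id (hμ : Gibbs μ) (z : ℤ × ℤ) :
    μ.real {f | En z f} - μ.real {f | Ws (z + dir true + dir false) f} =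
      cc μ true (z + dir false) - cc μ true z := by
  have h := lin_real hμ ![1, -1, -1, 1]
    ![En z, Ws (z + dir true + dir false), Lo true (z + dir false), Lo true z]
    (fun i => by
      fin_cases i
      exacts [meas_En _, meas_Ws _, meas_Lo _ _, meas_Lo _ _])
    fun f hf => by
      have p1 : z + dir true + dir false - dir true = z + dir false := by abel
      have p2 : z + dir false + dir true = z + dir true + dir false := by abel
      have a1 := step_dir hf true z
      have a2 := step_dir hf false z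
      have a3 := step_dir hf false (z + dir true)
      have a4 := step_dir hf true (z + dir false)
      rw [p2] at a4
      simp only [Fin.sum_univ_succ, En, Ws, Hi, Lo, ind, p1, p2, add_sub_cancel_right,
        Matrix.cons_val_zero, Matrix.cons_val_succ, Fin.sum_univ_zero]
      split_ifs <;> first | omega | norm_num
  simp [Fin.sum_univ_succ] at h
  simp only [cc]
  linarith

/-- truncated flux into a site -/
noncomputable def EE (μ : Measure Conf) (K : ℕ) (b : Bool) (r : ℤ × ℤ) : ℝ :=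
  ∑ l ∈ range K, μ.real {f | Rdg b (pt b r (-(l + 1 : ℕ))) (l + 1) f}

/-- truncated number of towers through a site -/
noncomputable def SS (μ : Measure Conf) (K : ℕ) (b : Bool) (r : ℤ × ℤ) : ℝ :=
  ∑ l ∈ range K, μ.real {f | Rdg b (pt b r (-l)) l f}

theorem EE_nonneg (μ : Measure Conf) (K : ℕ) (b : Bool) (r : ℤ × ℤ) : 0 ≤ EE μ K b r :=
  sum_nonneg fun _ _ => measureReal_nonneg

theorem SS_succ (μ : Measure Conf) (K : ℕ) (b : Bool) (r : ℤ × ℤ) :
    SS μ (K + 1) b r = EE μ K b r + μ.real {f | Rdg b r 0 f} := by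
  rw [SS, sum_range_succ', EE]
  simp [pt]

theorem SS_succ' (μ : Measure Conf) (K : ℕ) (b : Bool) (r : ℤ × ℤ) :
    SS μ (K + 1) b r = SS μ K b r + μ.real {f | Rdg b (pt b r (-K)) K f} := sum_range_succ _ _

theorem EE_dir (hμ : Gibbs μ) (K : ℕ) (b : Bool) (r : ℤ × ℤ) :
    EE μ K b (r + dir b) ≤ SS μ K b r ∧
      SS μ K b r - μ.real {f | Vly b r 0 f} ≤ EE μ K b (r + dir b) := by
  have e : SS μ K b r = ∑ l ∈ range K, μ.real {f | Av 1 (b, pt b r (-l), l) f} +
      EE μ K b (r + dir b) := by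
    rw [SS, EE, ← sum_add_distrib]
    refine sum_congr rfl fun l _ => ?_
    rw [q_succ hμ, p_rev hμ, pt_dir, show -((l + 1 : ℕ) : ℤ) + 1 = -l by push_cast; ring]
  have a1 := sum_end hμ b r (range K)
  have a2 : 0 ≤ ∑ l ∈ range K, μ.real {f | Av 1 (b, pt b r (-l), l) f} :=
    sum_nonneg fun _ _ => measureReal_nonneg
  constructor <;> linarith

theorem FF_le (hμ : Gibbs μ) (hN : NoRay μ) {N K : ℕ} (h : N ≤ K) (b : Bool) (r : ℤ × ℤ) :
    FF μ N b r ≤ 1 + EE μ K b r := by
  have := hμ.1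
  have a1 : FF μ N b r ≤ SS μ (K + 1) b r :=
    (sum_le_sum fun (i : ℕ) _ => sum_le_hasSum (range N) (fun _ _ => measureReal_nonneg)
      (hasSum_rdg hμ hN b (pt b r (-i)) i)).trans
      (sum_le_sum_of_subset_of_nonneg (range_subset_range.2 (by omega))
        fun _ _ _ => measureReal_nonneg)
  have a2 : μ.real {f | Rdg b r 0 f} ≤ 1 := measureReal_le_one
  linarith [SS_succ μ K b r]

theorem err0 (hμ : Gibbs μ) (hN : NoRay μ) (b : Bool) (r : ℤ × ℤ) :
    Tendsto (fun K : ℕ => μ.real {f | Rdg b (pt b r (-K)) K f}) atTop (𝓝 0) := by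
  refine tend0 hμ (fun _ => meas_Rdg _ _ _) (hN.mono fun f hf => ?_)
  obtain ⟨l, hl⟩ := (hf b r).2
  exact (eventually_ge_atTop l).mono fun K hK h =>
    hl (run_back fun t ht => vly_run h.1 (by omega))

variable {φ : ℤ × ℤ → ℝ} {U : Finset (ℤ × ℤ)} {lam TV : ℝ} {A : Bool → ℤ × ℤ → ℝ}

theorem EE_ww (h : Dat μ φ U lam TV A) (K : ℕ) (b : Bool) (z : ℤ × ℤ) :
    EE μ K b (z + dir b) * ww φ b z ≤ 8 * lam := by
  have hμ := h.gib
  have := hμ.1
  have e0 := EE_nonneg μ K b (z + dir b)
  have e1 := (EE_dir hμ K b z).1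
  have e2 : SS μ K b z ≤ EE μ K b z + μ.real {f | Rdg b z 0 f} := by
    rw [← SS_succ, SS_succ']
    exact le_add_of_nonneg_right measureReal_nonneg
  have e3 := (EE_dir hμ K b (z - dir b)).1
  rw [sub_add_cancel] at e3
  have r1 : μ.real {f | Rdg b z 0 f} ≤ 1 := measureReal_le_one
  have r2 : μ.real {f | Rdg b z 0 f} ≤ μ.real {f | ¬ Hi (!b) z f} :=
    real_mono hμ fun f hf e => (not_hi hf (!b) z).2 e.2.2.2
  have d1 : SS μ K b z * cc μ b z ≤ 1 := dualc hμ h.tri b z (range K)
  have d2 : SS μ K b (z - dir b) * cc μ b (z - dir b) ≤ 1 := dualc hμ h.tri b _ (range K)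
  have d3 : EE μ K b z * al μ (!b) z ≤ 1 := dual hμ h.tri b (!b) z (range K)
  have d4 := h.a0 (!b) z
  have d5 := mul_le_mul_of_nonneg_left (h.A1 (!b) z) (EE_nonneg μ K b z)
  have c1 := cc_nonneg μ b z
  have c2 := cc_nonneg μ b (z - dir b)
  have c3 := cc_le hμ b (z - dir b)
  have a0 := h.A0 (!b) z
  have k1 : EE μ K b (z + dir b) * A (!b) z ≤ 2 := by
    nlinarith [mul_le_mul_of_nonneg_right (e1.trans (e2.trans (add_le_add_right r2 _))) a0]
  have k2 : EE μ K b (z + dir b) * cc μ b z ≤ 1 := (mul_le_mul_of_nonneg_right e1 c1).trans d1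
  have k3 : EE μ K b (z + dir b) * cc μ b (z - dir b) ≤ 2 := by
    nlinarith [mul_le_mul_of_nonneg_right (e1.trans (e2.trans (add_le_add e3 r1))) c2]
  refine (mul_le_mul_of_nonneg_left (h.hw b z) e0).trans ?_
  nlinarith [h.lam0]

theorem fm_row : FMStmt := by
  refine ⟨4000, by norm_num, fun μ φ U lam TV A h hN h1 n hn hU N b => ?_⟩
  have hμ := h.gib
  have := hμ.1
  have n1 : (1 : ℝ) ≤ n := by exact_mod_cast hn
  set W := box 0 (n + 2) with eW
  set G : ℤ × ℤ → ℝ := fun z => ((z.1 : ℝ) + z.2 + 3 * n) * φ z with eG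
  have s0 : ∀ z, φ z ≠ 0 → nrm z ≤ n := fun z hz => hU z (h.supp z hz)
  have s1 : ∀ z, G z ≠ 0 → nrm z ≤ n := fun z hz => s0 z (right_ne_zero_of_mul hz)
  have m0 : ∀ z, nrm z ≤ n → z ∈ W := fun z hz => mem_box0.2 (by push_cast; omega)
  have m1 : ∀ c z, nrm (z + dir c) ≤ n → z ∈ W := fun c z hz =>
    mem_box0.2 (by have := nrm_dir c z; push_cast; omega)
  have m2 : ∀ z, nrm (z + (dir true + dir false)) ≤ n → z ∈ W := fun z hz => mem_box0.2 (by
    have := nrm_dir true z
    have := nrm_dir false (z + dir true)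
    rw [← add_assoc] at hz
    push_cast
    omega)
  have co : ∀ z : ℤ × ℤ, nrm z ≤ n → (n : ℝ) ≤ (z.1 : ℝ) + z.2 + 3 * n ∧
      (z.1 : ℝ) + z.2 + 3 * n ≤ 5 * n := fun z hz => by
    have : (n : ℤ) ≤ z.1 + z.2 + 3 * n ∧ z.1 + z.2 + 3 * n ≤ 5 * n := by
      simp only [nrm, Int.abs_eq_natAbs] at hz
      omega
    exact ⟨by exact_mod_cast this.1, by exact_mod_cast this.2⟩
  have G0 : ∀ z, 0 ≤ G z := fun z => by
    by_cases e : φ z = 0
    · simp [eG, e]
    · exact mul_nonneg (by linarith [(co z (s0 z e)).1]) (h.h0 z)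
  have dG : ∀ c z, |G (z + dir c) - G z - φ (z + dir c)| ≤ 5 * n * ww φ c z := fun c z => by
    have h3 : (((z + dir c).1 : ℤ) : ℝ) + (z + dir c).2 = z.1 + z.2 + 1 := by
      cases c <;> simp [dir] <;> ring
    rw [show G (z + dir c) - G z - φ (z + dir c) =
      ((z.1 : ℝ) + z.2 + 3 * n) * (φ (z + dir c) - φ z) by simp only [eG, h3]; ring, abs_mul]
    by_cases e : φ (z + dir c) - φ z = 0
    · simp [ww, e]
    · refine mul_le_mul_of_nonneg_right (abs_le.2 ?_) (abs_nonneg _)
      by_cases e' : φ z = 0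
      · have := co _ (s0 (z + dir c) (by simpa [e'] using e))
        constructor <;> linarith [this.1, this.2]
      · have := co _ (s0 z e')
        constructor <;> linarith [this.1, this.2]
  have cW : (W.card : ℝ) ≤ 49 * n ^ 2 := by
    rw [eW, card_box]
    push_cast
    nlinarith
  have tG : ∀ c e, ∑ z ∈ W, (G (z + e) - G (z + e + dir c)) ⊔ 0 ≤ 5 * n * TV := fun c e => by
    have t := h.tv c (W.map (Equiv.addRight e).toEmbedding)
    rw [sum_map] at t
    refine le_trans (sum_le_sum fun z _ => ?_)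
      ((mul_sum _ _ _).symm.le.trans (mul_le_mul_of_nonneg_left t (by positivity)))
    have := (abs_le.1 (dG c (z + e))).1
    exact sup_le (by simp only [Equiv.coe_toEmbedding, Equiv.coe_addRight]; linarith [h.h0 (z + e + dir c)])
      (mul_nonneg (by positivity) (ww_nonneg _ _ _))
  have loc : ∑ z ∈ W, G z * (μ.real {f | En z f} - μ.real {f | Ws z f}) ≤ 15 * n * TV := by
    have a1 := shift_sum (fun z => G z * μ.real {f | Ws z f}) (dir true + dir false) W
      (fun z hz => m0 z (s1 z (left_ne_zero_of_mul hz)))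
      fun z hz => m2 z (s1 _ (left_ne_zero_of_mul hz))
    have a2 := shift_sum (fun z => G z * cc μ true z) (dir false) W
      (fun z hz => m0 z (s1 z (left_ne_zero_of_mul hz)))
      fun z hz => m1 false z (s1 _ (left_ne_zero_of_mul hz))
    have a3 : ∑ z ∈ W, (G z * μ.real {f | En z f} + G z * cc μ true z -
        G (z + (dir true + dir false)) * μ.real {f | Ws (z + (dir true + dir false)) f} -
        G (z + dir false) * cc μ true (z + dir false)) ≤
        ∑ z ∈ W, ((G (z + 0) - G (z + 0 + dir false)) ⊔ 0 + (G (z + 0) - G (z + 0 + dir true)) ⊔ 0 +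
          (G (z + dir true) - G (z + dir true + dir false)) ⊔ 0) := by
      refine sum_le_sum fun z _ => ?_
      have f1 := face_id hμ z
      rw [add_zero, ← add_assoc]
      have u : ∀ x p : ℝ, 0 ≤ p → p ≤ 1 → x * p ≤ x ⊔ 0 := fun x p p0 p1 =>
        (mul_le_mul_of_nonneg_right le_sup_left p0).trans (mul_le_of_le_one_right le_sup_right p1)
      have u1 := u (G z - G (z + dir false)) _ (cc_nonneg μ true (z + dir false)) (cc_le hμ _ _)
      have u2 := u (G z - G (z + dir true)) (μ.real {f | Ws (z + dir true + dir false) f})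
        measureReal_nonneg measureReal_le_one
      have u3 := u (G (z + dir true) - G (z + dir true + dir false))
        (μ.real {f | Ws (z + dir true + dir false) f}) measureReal_nonneg measureReal_le_one
      have f2 := congrArg (G z * ·) f1
      linarith
    simp only [sum_add_distrib, sum_sub_distrib] at a3
    simp only [mul_sub, sum_sub_distrib]
    linarith [tG false 0, tG true 0, tG false (dir true)]
  have key : ∀ K c, ∑ z ∈ W, φ z * EE μ K c z ≤
      ∑ z ∈ W, G z * μ.real {f | Rdg c (pt c z (-K)) K f} +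
        ∑ z ∈ W, G z * (μ.real {f | Vly c z 0 f} - μ.real {f | Rdg c z 0 f}) +
        W.card * (5 * n * (8 * lam)) := fun K c => by
    rw [← shift_sum (fun z => φ z * EE μ K c z) (dir c) W
      (fun z hz => m0 z (s0 z (left_ne_zero_of_mul hz)))
      fun z hz => m1 c z (s0 _ (left_ne_zero_of_mul hz))]
    have a1 := shift_sum (fun z => G z * EE μ K c z) (dir c) W
      (fun z hz => m0 z (s1 z (left_ne_zero_of_mul hz)))
      fun z hz => m1 c z (s1 _ (left_ne_zero_of_mul hz))
    have a2 : ∑ z ∈ W, (φ (z + dir c) * EE μ K c (z + dir c) + G z * EE μ K c z -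
        G (z + dir c) * EE μ K c (z + dir c)) ≤ ∑ z ∈ W,
        (G z * μ.real {f | Rdg c (pt c z (-K)) K f} +
          G z * (μ.real {f | Vly c z 0 f} - μ.real {f | Rdg c z 0 f}) + 5 * n * (8 * lam)) := by
      refine sum_le_sum fun z _ => ?_
      have b1 := mul_le_mul_of_nonneg_left (abs_le.1 (dG c z)).1 (EE_nonneg μ K c (z + dir c))
      have b2 := mul_le_mul_of_nonneg_left (EE_ww h K c z) (by positivity : (0 : ℝ) ≤ 5 * n)
      have b3 : EE μ K c z - EE μ K c (z + dir c) ≤ μ.real {f | Rdg c (pt c z (-K)) K f} +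
          (μ.real {f | Vly c z 0 f} - μ.real {f | Rdg c z 0 f}) := by
        linarith [(EE_dir hμ K c z).2, SS_succ μ K c z, SS_succ' μ K c z]
      have b4 := mul_le_mul_of_nonneg_left b3 (G0 z)
      linarith
    simp only [sum_add_distrib, sum_sub_distrib, sum_const, nsmul_eq_mul] at a2
    linarith
  have lim : Tendsto (fun K : ℕ => ∑ c, ∑ z ∈ W, G z * μ.real {f | Rdg c (pt c z (-K)) K f})
      atTop (𝓝 0) := by
    simpa using tendsto_finsetSum univ fun c _ => tendsto_finsetSum W fun z _ =>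
      (err0 hμ hN c z).const_mul (G z)
  have fin : ∑ r ∈ U, φ r * FF μ N b r - (W.card + 15 * n * TV + 2 * (W.card * (5 * n * (8 * lam))))
      ≤ 0 := by
    refine ge_of_tendsto lim ((eventually_ge_atTop N).mono fun K hK => ?_)
    have a1 : ∑ r ∈ U, φ r * FF μ N b r ≤ ∑ r ∈ W, (1 + φ r * EE μ K b r) :=
      (sum_le_sum fun r _ => by
        nlinarith [mul_le_mul_of_nonneg_left (FF_le hμ hN hK b r) (h.h0 r), h1 r]).trans
        (sum_le_sum_of_subset_of_nonneg (fun r hr => m0 r (hU r hr)) fun r _ _ =>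
          add_nonneg zero_le_one (mul_nonneg (h.h0 r) (EE_nonneg _ _ _ _)))
    have a2 : ∑ r ∈ W, φ r * EE μ K b r ≤ ∑ c, ∑ r ∈ W, φ r * EE μ K c r :=
      single_le_sum (f := fun c => ∑ r ∈ W, φ r * EE μ K c r)
        (fun c _ => sum_nonneg fun r _ => mul_nonneg (h.h0 r) (EE_nonneg _ _ _ _)) (mem_univ b)
    have a3 := sum_le_sum fun c (_ : c ∈ (univ : Finset Bool)) => key K c
    have a4 : ∑ c, ∑ z ∈ W, G z * (μ.real {f | Vly c z 0 f} - μ.real {f | Rdg c z 0 f}) =
        ∑ z ∈ W, G z * (μ.real {f | En z f} - μ.real {f | Ws z f}) := by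
      rw [sum_comm]
      exact sum_congr rfl fun z _ => by rw [← mul_sum, site_id hμ]
    rw [sum_add_distrib, sum_add_distrib, a4, sum_const, card_univ, Fintype.card_bool] at a3
    rw [sum_add_distrib, sum_const] at a1
    simp only [nsmul_eq_mul, mul_one, Nat.cast_ofNat] at a1 a3
    linarith
  have t0 := mul_nonneg (by linarith : (0 : ℝ) ≤ n) h.tv0
  have t1 := mul_le_mul_of_nonneg_right cW (mul_nonneg (by linarith : (0 : ℝ) ≤ n) h.lam0)
  have t2 : 0 ≤ (n : ℝ) ^ 2 * (n * lam) := by have := h.lam0; positivity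
  nlinarith

end Pool.Agent.MP_151d89_pr.H52E
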