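import Pool.Agent.MP_151d89_pr.H67E.Spec
import Pool.Agent.MP_151d89_pr.H9.Spec

/-!
The first moment bound for the towers through the support of a cut-off: statement.
-/

set_option autoImplicit false
open MeasureTheory Finset

namespace Pool.Agent.MP_151d89_pr.H52E
open Pool.Agent.MP_151d89_pr.H82 Pool.Agent.MP_151d89_pr.H33 Pool.Agent.MP_151d89_pr.H67
  Pool.Agent.MP_151d89_pr.H30 Pool.Agent.MP_151d89_pr.H27 Pool.Agent.MP_151d89_pr.H67E

/-- Row FM: the first moment of the towers weighted by the cut-off -/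
def FMStmt : Prop :=
  ∃ C : ℝ, 0 ≤ C ∧ ∀ (μ : Measure Conf) (φ : ℤ × ℤ → ℝ) (U : Finset (ℤ × ℤ)) (lam TV : ℝ)
    (A : Bool → ℤ × ℤ → ℝ), Dat μ φ U lam TV A → NoRay μ → (∀ z, φ z ≤ 1) →
      ∀ n : ℕ, 1 ≤ n → (∀ z ∈ U, nrm z ≤ n) → ∀ (N : ℕ) (b : Bool),
        ∑ r ∈ U, φ r * FF μ N b r ≤ C * (n * (n + TV + lam * n ^ 2))

end Pool.Agent.MP_151d89_pr.H52E
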